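import Pool.Agent.K3h26.R5.Stm

/-! Brick OVS (project R5 of helper26): the overlap of two tiles at a square face. -/

set_option autoImplicit false

open MeasureTheory Filter Topology Set
open scoped ENNReal

namespace Pool.Agent.K3h24.R5

open H947TP Pool.Agent.K3h26.R5

theorem vol_le (A : Set (Fin 5 → ℝ)) (L : Matrix (Fin 5) (Fin 5) ℝ) (hdet : |L.det| = 2)
    (lo hi : Fin 5 → ℝ)
    (hsub : ∀ x ∈ A, ∀ l, lo l < (Matrix.toLin' L) x l ∧ (Matrix.toLin' L) x l < hi l) :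
    volume A ≤ ENNReal.ofReal (1 / 2) * ∏ l, ENNReal.ofReal (hi l - lo l) := by
  have h1 : A ⊆ (Matrix.toLin' L) ⁻¹' (Set.pi univ fun l => Ioo (lo l) (hi l)) := by
    intro x hx l _
    exact hsub x hx l
  refine (measure_mono h1).trans ?_
  have hne : LinearMap.det (Matrix.toLin' L) ≠ 0 := by
    rw [LinearMap.det_toLin']
    intro h
    rw [h, abs_zero] at hdet
    norm_num at hdet
  rw [Measure.addHaar_preimage_linearMap volume hne, LinearMap.det_toLin', abs_inv, hdet,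
    Real.volume_pi_Ioo]
  norm_num

theorem len (c w : ℝ) : min c (w + c) - max (-c) (w - c) = 2 * c - |w| := by
  rcases le_total 0 w with h | h
  · rw [min_eq_left (by linarith), max_eq_right (by linarith), abs_of_nonneg h]; ring
  · rw [min_eq_right (by linarith), max_eq_left (by linarith), abs_of_nonpos h]; ring

theorem betw {c w x : ℝ} (h1 : |x| < c) (h2 : |x - w| < c) :
    max (-c) (w - c) < x ∧ x < min c (w + c) := by
  rw [abs_lt] at h1 h2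
  exact ⟨max_lt h1.1 (by linarith [h2.1]), lt_min h1.2 (by linarith [h2.2])⟩

theorem fin_le {a b τ : ℝ} (ha : 0 ≤ a) (hb : 0 ≤ b) (hτ0 : 0 ≤ τ) (hτ : τ ≤ 1 / 10) :
    ENNReal.ofReal (1 / 2) * (ENNReal.ofReal (2 * τ) * (ENNReal.ofReal (1 + 4 * τ) *
      (ENNReal.ofReal (1 + 4 * τ) * (ENNReal.ofReal a * ENNReal.ofReal b)))) ≤
    ENNReal.ofReal (a * b * (τ * (1 + 10 * τ))) := by
  rw [← ENNReal.ofReal_mul ha, ← ENNReal.ofReal_mul (by linarith),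
    ← ENNReal.ofReal_mul (by linarith), ← ENNReal.ofReal_mul (by linarith),
    ← ENNReal.ofReal_mul (by norm_num)]
  apply ENNReal.ofReal_le_ofReal
  have hab : 0 ≤ a * b := mul_nonneg ha hb
  have h1 : 1 / 2 * (2 * τ * ((1 + 4 * τ) * ((1 + 4 * τ) * (a * b)))) =
      a * b * (τ * ((1 + 4 * τ) * (1 + 4 * τ))) := by ring
  rw [h1]
  apply mul_le_mul_of_nonneg_left _ hab
  apply mul_le_mul_of_nonneg_left _ hτ0
  nlinarith

/-- the two sums of the coordinates other than `i` -/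
theorem diam {a b c v r : ℝ} (h : |a| + |b| + |c| < 3 / 2) (hd : |a - v| < 1)
    (hr : |v| = 5 / 2 - r) :
    (-r < b + c ∧ b + c < r) ∧ (-r < b - c ∧ b - c < r) := by
  have h1 : |v| - |a| ≤ |a - v| := by
    rw [abs_sub_comm]; exact abs_sub_abs_le_abs_sub _ _
  have h2 := abs_le.mp (le_refl |b|)
  have h3 := abs_le.mp (le_refl |c|)
  refine ⟨⟨?_, ?_⟩, ?_, ?_⟩ <;> linarith [h2.1, h2.2, h3.1, h3.2]

/-- the corners of the box -/
noncomputable def lo (w v3 v4 τ : ℝ) : Fin 5 → ℝ :=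
  ![max (-1) (w - 1), -(1 / 2 + 2 * τ), -(1 / 2 + 2 * τ), max (-(1 / 2)) (v3 - 1 / 2),
    max (-(1 / 2)) (v4 - 1 / 2)]

/-- the corners of the box -/
noncomputable def hi (w v3 v4 τ : ℝ) : Fin 5 → ℝ :=
  ![min 1 (w + 1), 1 / 2 + 2 * τ, 1 / 2 + 2 * τ, min (1 / 2) (v3 + 1 / 2),
    min (1 / 2) (v4 + 1 / 2)]

theorem prod_len {w v3 v4 τ : ℝ} (hw : |w| = 2 * (1 - τ)) :
    ∏ l, ENNReal.ofReal (hi w v3 v4 τ l - lo w v3 v4 τ l) =
    ENNReal.ofReal (2 * τ) * (ENNReal.ofReal (1 + 4 * τ) *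
      (ENNReal.ofReal (1 + 4 * τ) * (ENNReal.ofReal (1 - |v3|) * ENNReal.ofReal (1 - |v4|)))) := by
  rw [Fin.prod_univ_five]
  have e0 : hi w v3 v4 τ 0 - lo w v3 v4 τ 0 = 2 * τ := by
    have := len 1 w
    rw [hw] at this
    show min 1 (w + 1) - max (-1) (w - 1) = 2 * τ
    linarith
  have e1 : hi w v3 v4 τ 1 - lo w v3 v4 τ 1 = 1 + 4 * τ := by
    show 1 / 2 + 2 * τ - -(1 / 2 + 2 * τ) = 1 + 4 * τ
    ring
  have e2 : hi w v3 v4 τ 2 - lo w v3 v4 τ 2 = 1 + 4 * τ := by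
    show 1 / 2 + 2 * τ - -(1 / 2 + 2 * τ) = 1 + 4 * τ
    ring
  have e3 : hi w v3 v4 τ 3 - lo w v3 v4 τ 3 = 1 - |v3| := by
    have := len (1 / 2) v3
    show min (1 / 2) (v3 + 1 / 2) - max (-(1 / 2)) (v3 - 1 / 2) = 1 - |v3|
    linarith
  have e4 : hi w v3 v4 τ 4 - lo w v3 v4 τ 4 = 1 - |v4| := by
    have := len (1 / 2) v4
    show min (1 / 2) (v4 + 1 / 2) - max (-(1 / 2)) (v4 - 1 / 2) = 1 - |v4|
    linarith
  rw [e0, e1, e2, e3, e4]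
  ring

/-- the general step: `i, j, k` are `0, 1, 2` in some order -/
theorem step (A : Set (Fin 5 → ℝ)) (v : Fin 5 → ℝ) (τ : ℝ) (i j k : Fin 5)
    (L : Matrix (Fin 5) (Fin 5) ℝ) (hdet : |L.det| = 2)
    (hL : ∀ x, Matrix.toLin' L x = ![x i, x j + x k, x j - x k, x 3, x 4])
    (hv : |v i| = 2 * (1 - τ)) (hτ0 : 0 ≤ τ) (hτ : τ ≤ 1 / 10) (h3 : 0 ≤ 1 - |v 3|)
    (h4 : 0 ≤ 1 - |v 4|)
    (hA : ∀ x ∈ A, |x i| + |x j| + |x k| < 3 / 2 ∧ |x i| < 1 ∧ |x i - v i| < 1 ∧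
      |x 3| < 1 / 2 ∧ |x 4| < 1 / 2 ∧ |x 3 - v 3| < 1 / 2 ∧ |x 4 - v 4| < 1 / 2) :
    volume A ≤ ENNReal.ofReal ((1 - |v 3|) * (1 - |v 4|) * (τ * (1 + 10 * τ))) := by
  refine (vol_le A L hdet (lo (v i) (v 3) (v 4) τ) (hi (v i) (v 3) (v 4) τ) ?_).trans ?_
  · intro x hx l
    obtain ⟨a1, a2, b2, a3, a4, b3, b4⟩ := hA x hx
    obtain ⟨d1, d2⟩ := diam (r := 1 / 2 + 2 * τ) a1 b2 (by rw [hv]; ring)
    rw [hL]
    fin_cases l
    · exact betw a2 b2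
    · exact d1
    · exact d2
    · exact betw a3 b3
    · exact betw a4 b4
  · rw [prod_len hv]
    exact fin_le h3 h4 hτ0 hτ

theorem t_OVS : Pool.Agent.K3h26.R5.S_OVS := by
  intro v τ hn1 hni hmy hτ hτ10
  have h3 : 0 ≤ 1 - |v 3| := by
    have := lt_of_le_of_lt (le_max_left |v 3| |v 4|) hmy
    linarith
  have h4 : 0 ≤ 1 - |v 4| := by
    have := lt_of_le_of_lt (le_max_right |v 3| |v 4|) hmy
    linarith
  have hτ0 : 0 ≤ τ := by rw [hτ]; linarith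
  have hmem : ∀ x ∈ Pt 1 ∩ tr v (Pt 1), (|x 0| + |x 1| + |x 2| < 3 / 2 ∧ (|x 0| < 1 ∧ |x 1| < 1 ∧
      |x 2| < 1) ∧ |x 3| < 1 / 2 ∧ |x 4| < 1 / 2) ∧ (|x 0 - v 0| < 1 ∧ |x 1 - v 1| < 1 ∧
      |x 2 - v 2| < 1) ∧ |x 3 - v 3| < 1 / 2 ∧ |x 4 - v 4| < 1 / 2 := by
    intro x hx
    obtain ⟨⟨ha1, ha2, ha3⟩, hb⟩ := hx
    have hb' : x - v ∈ Pt 1 := by
      obtain ⟨z, hz, rfl⟩ := hb
      have : v + z - v = z := by abel
      simpa [this] using hz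
    obtain ⟨-, hb2, hb3⟩ := hb'
    simp only [ni, my, max_lt_iff, Pi.sub_apply] at ha2 ha3 hb2 hb3
    refine ⟨⟨by simpa [n1] using ha1, ⟨ha2.1, ha2.2.1, ha2.2.2⟩, ha3.1, ha3.2⟩,
      ⟨hb2.1, hb2.2.1, hb2.2.2⟩, hb3.1, hb3.2⟩
  have hcases : |v 0| = ni v ∨ |v 1| = ni v ∨ |v 2| = ni v := by
    unfold ni
    rcases max_choice |v 0| (max |v 1| |v 2|) with h | h
    · left; exact h.symm
    · rw [h]
      rcases max_choice |v 1| |v 2| with h' | h'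
      · right; left; exact h'.symm
      · right; right; exact h'.symm
  have hni2 : ni v = 2 * (1 - τ) := by rw [hτ]; ring
  rcases hcases with h | h | h
  · refine step _ v τ 0 1 2 !![1, 0, 0, 0, 0; 0, 1, 1, 0, 0; 0, 1, -1, 0, 0; 0, 0, 0, 1, 0;
      0, 0, 0, 0, 1] ?_ ?_ (h.trans hni2) hτ0 hτ10 h3 h4 ?_
    · simp [Matrix.det_succ_row_zero, Fin.sum_univ_succ, Fin.succAbove]
      try norm_num
    · intro x
      funext l
      fin_cases l <;>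
      simp [Matrix.toLin'_apply, Matrix.mulVec, dotProduct, Fin.sum_univ_succ] <;> try ring
    · intro x hx
      obtain ⟨⟨a1, ⟨a2, a3, a4⟩, a5, a6⟩, ⟨b2, b3, b4⟩, b5, b6⟩ := hmem x hx
      exact ⟨by linarith, a2, b2, a5, a6, b5, b6⟩
  · refine step _ v τ 1 0 2 !![0, 1, 0, 0, 0; 1, 0, 1, 0, 0; 1, 0, -1, 0, 0; 0, 0, 0, 1, 0;
      0, 0, 0, 0, 1] ?_ ?_ (h.trans hni2) hτ0 hτ10 h3 h4 ?_
    · simp [Matrix.det_succ_row_zero, Fin.sum_univ_succ, Fin.succAbove]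
      try norm_num
    · intro x
      funext l
      fin_cases l <;>
      simp [Matrix.toLin'_apply, Matrix.mulVec, dotProduct, Fin.sum_univ_succ] <;> try ring
    · intro x hx
      obtain ⟨⟨a1, ⟨a2, a3, a4⟩, a5, a6⟩, ⟨b2, b3, b4⟩, b5, b6⟩ := hmem x hx
      exact ⟨by linarith, a3, b3, a5, a6, b5, b6⟩
  · refine step _ v τ 2 0 1 !![0, 0, 1, 0, 0; 1, 1, 0, 0, 0; 1, -1, 0, 0, 0; 0, 0, 0, 1, 0;
      0, 0, 0, 0, 1] ?_ ?_ (h.trans hni2) hτ0 hτ10 h3 h4 ?_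
    · simp [Matrix.det_succ_row_zero, Fin.sum_univ_succ, Fin.succAbove]
      try norm_num
    · intro x
      funext l
      fin_cases l <;>
      simp [Matrix.toLin'_apply, Matrix.mulVec, dotProduct, Fin.sum_univ_succ] <;> try ring
    · intro x hx
      obtain ⟨⟨a1, ⟨a2, a3, a4⟩, a5, a6⟩, ⟨b2, b3, b4⟩, b5, b6⟩ := hmem x hx
      exact ⟨by linarith, a4, b4, a5, a6, b5, b6⟩

end Pool.Agent.K3h24.R5
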